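import Pool.Agent.helper97.AS.Spec

/-!
# Row GOB of project AS
-/

set_option autoImplicit false

namespace Pool.Agent.helper97.AS

open Pool.Agent.helper20.LB (Step F IsSq Same Bd co)

theorem GOB_mono {f : ℤ → ℤ} (h : Step f) (x : ℤ) (n : ℕ) : f x ≤ f (x + n) ∧ f (x + n) ≤ f x + n := by
  induction n with
  | zero => simp
  | succ n ih =>
    have h1 := h (x + n)
    have e : x + ((n + 1 : ℕ) : ℤ) = x + n + 1 := by push_cast; ring
    rw [e]
    push_cast
    constructor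
    · linarith [ih.1, h1.1]
    · linarith [ih.2, h1.2]

theorem GOB_cnt {f : ℤ → ℤ} {x y : ℤ} {K K' : ℕ} (h : Cnt f x y K) (hK : K' ≤ K) : Cnt f x y K' := by
  obtain ⟨A, h1, h2, h3⟩ := h
  exact ⟨A, h1, h2, hK.trans h3⟩

theorem GOB_co {f : ℤ → ℤ} {p τ : ℤ} (h : Per f p τ) : Per (co f) p (p - τ) := by
  obtain ⟨h1, h2, h3⟩ := h
  refine ⟨fun x => ?_, h2, fun x => ?_⟩
  · have := h1 x
    unfold co
    constructor
    · linarith [this.2]
    · linarith [this.1]
  · unfold co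
    rw [h3]
    ring

theorem GOB (hLIN : LIN_stmt) (hCOU : COU_stmt) (hCO1 : CO1_stmt) (hHALF : HALF_stmt) : GOB_stmt := by
  intro f M τ hper hM
  obtain ⟨T, hT⟩ : ∃ T, T = TT f 0 M := ⟨_, rfl⟩
  obtain ⟨l1, l2⟩ := hLIN f (M + 1) τ 0 M hper hM
  rw [← hT] at l1 l2
  have ey : (0 : ℤ) + (M + 1) + M = 2 * M + 1 := by ring
  rw [ey] at l1 l2
  have hstep : Step f := hper.1
  -- the values
  have e1 : f M = f (-1) + τ := by
    have := hper.2.2 (-1)
    rwa [show (-1 : ℤ) + (M + 1) = M by ring] at this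
  have e2 : T = f (M + 1) - f (-1) := by
    rw [hT]
    unfold TT
    rw [show (0 : ℤ) + M + 1 = M + 1 by ring, show (0 : ℤ) - 1 = -1 by ring]
  obtain ⟨m, hm⟩ : ∃ m : ℕ, (m : ℤ) = M + 1 := ⟨(M + 1).toNat, Int.toNat_of_nonneg (by omega)⟩
  have e3 := GOB_mono hstep (-1) m
  rw [hm, show (-1 : ℤ) + (M + 1) = M by ring] at e3
  have e4 := hstep M
  have hT0 : 0 ≤ T := by omega
  have hS0 : 0 ≤ M + 2 - T := by omega
  have hcou : Cnt f 0 (2 * M + 1) (kk T + kk (M + 2 - T)) := hCOU f 0 (2 * M + 1) _ _ l1 l2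
  by_cases hcase : M / 2 ≤ (kk T : ℤ) + kk (M + 2 - T)
  · refine GOB_cnt hcou ?_
    omega
  · -- both even and positive
    unfold kk at hcase
    have hTe : T % 2 = 0 := by omega
    have hSe : (M + 2 - T) % 2 = 0 := by omega
    have hT2 : 2 ≤ T := by omega
    have hS2 : 2 ≤ M + 2 - T := by omega
    have hex : Ext f 0 (2 * M + 1) (kk T) ∨ Ext (co f) 0 (2 * M + 1) (kk (M + 2 - T)) := by
      rcases (by omega : f (M + 1) = f M ∨ f (M + 1) = f M + 1) with hd | hd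
      · left
        obtain ⟨t, ht⟩ : ∃ t, T = 2 * t := ⟨T / 2, by omega⟩
        have hτ : τ = 2 * t := by omega
        obtain ⟨s, hs⟩ := hHALF f (M + 1) t 0 (hτ ▸ hper) (by omega)
        rw [show (0 : ℤ) + 2 * (M + 1) - 1 = 2 * M + 1 by ring] at hs
        refine Or.inl ⟨t, s, ?_, hs⟩
        unfold kk
        omega
      · right
        obtain ⟨t, ht⟩ : ∃ t, M + 2 - T = 2 * t := ⟨(M + 2 - T) / 2, by omega⟩
        have hτ : M + 1 - τ = 2 * t := by omega
        have hco := GOB_co hper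
        rw [hτ] at hco
        obtain ⟨s, hs⟩ := hHALF (co f) (M + 1) t 0 hco (by omega)
        rw [show (0 : ℤ) + 2 * (M + 1) - 1 = 2 * M + 1 by ring] at hs
        refine Or.inl ⟨t, s, ?_, hs⟩
        unfold kk
        omega
    refine GOB_cnt (hCO1 f 0 (2 * M + 1) _ _ hstep l1 l2 hex) ?_
    unfold kk
    omega

end Pool.Agent.helper97.AS
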